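import Pool.Agent.H52.PSR.Targets

/-!
Row CNT of the board psr_modules (MP_29035e_co): the number of zeros of the sum of eight squares.
-/

namespace Pool.Agent.H19.PSR

open Module Pool.Agent.H41.SP Pool.Agent.H52.PSR

/-- minus one is a sum of two squares in a finite field of odd characteristic -/
lemma neg_one_sum (E : Type) [Field E] [Finite E] (h2 : (2 : E) ≠ 0) :
    ∃ a b : E, a ^ 2 + b ^ 2 = -1 := by
  classical
  have := Fintype.ofFinite E
  have hodd : Fintype.card E % 2 = 1 := by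
    apply FiniteField.odd_card_of_char_ne_two
    intro hc
    apply h2
    have := ringChar.Nat.cast_ringChar (R := E)
    rw [hc] at this
    exact_mod_cast this
  let f : Polynomial E := Polynomial.X ^ 2
  let g : Polynomial E := Polynomial.X ^ 2 - Polynomial.C (-1)
  obtain ⟨a, b, hab⟩ : ∃ a b, f.eval a + g.eval b = 0 :=
    FiniteField.exists_root_sum_quadratic (Polynomial.degree_X_pow 2)
      (Polynomial.degree_X_pow_sub_C (by decide) _) hodd
  refine ⟨a, b, ?_⟩
  have h : a ^ 2 + (b ^ 2 - (-1)) = 0 := by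
    simpa [f, g] using hab
  linear_combination h

/-- the linear functional `y ↦ α · y` in four variables -/
noncomputable def dotf {E : Type} [Field E] (α : Fin 4 → E) : (Fin 4 → E) →ₗ[E] E where
  toFun y := ∑ i, α i * y i
  map_add' x y := by
    simp only [Pi.add_apply, mul_add, Finset.sum_add_distrib]
  map_smul' c x := by
    simp only [Pi.smul_apply, smul_eq_mul, RingHom.id_apply, Finset.mul_sum]
    apply Finset.sum_congr rfl
    intro i _
    ring

lemma card_dot (E : Type) [Field E] [Finite E] (α : Fin 4 → E) :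
    Nat.card E ^ 3 ≤ Nat.card {y : Fin 4 → E // dotf α y = 0} := by
  have hc4 : Nat.card (Fin 4 → E) = Nat.card E ^ 4 := by
    rw [Nat.card_fun, Nat.card_fin]
  have hq : 0 < Nat.card E := Nat.card_pos
  by_cases h : dotf α = 0
  · have e : Nat.card {y : Fin 4 → E // dotf α y = 0} = Nat.card (Fin 4 → E) := by
      apply Nat.card_congr
      apply Equiv.subtypeUnivEquiv
      intro y
      rw [h]
      rfl
    rw [e, hc4]
    exact Nat.pow_le_pow_right hq (by norm_num)
  · have e := card_fiber (dotf α) h 0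
    rw [hc4, pow_succ' (Nat.card E) 3] at e
    exact (Nat.eq_of_mul_eq_mul_left hq e).ge

/-- the explicit map to the zeros of `N8` -/
noncomputable def toZ {E : Type} [Field E] (a b : E) (α β : Fin 4 → E) : Fin 8 → E :=
  ![(α 0 + β 0) / 2, (α 1 + β 1) / 2, (α 2 + β 2) / 2, (α 3 + β 3) / 2,
    a * ((β 0 - α 0) / 2) + b * ((β 1 - α 1) / 2), a * ((β 1 - α 1) / 2) - b * ((β 0 - α 0) / 2),
    a * ((β 2 - α 2) / 2) + b * ((β 3 - α 3) / 2), a * ((β 3 - α 3) / 2) - b * ((β 2 - α 2) / 2)]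

lemma N8_toZ {E : Type} [Field E] (h2 : (2 : E) ≠ 0) {a b : E} (hab : a ^ 2 + b ^ 2 = -1)
    (α β : Fin 4 → E) (h : ∑ i, α i * β i = 0) : N8 (toZ a b α β) = 0 := by
  have h4 : (4 : E) ≠ 0 := by
    have : (4 : E) = 2 * 2 := by norm_num
    rw [this]
    exact mul_ne_zero h2 h2
  have e : N8 (toZ a b α β) =
      (((α 0 + β 0) ^ 2 + (α 1 + β 1) ^ 2 + (α 2 + β 2) ^ 2 + (α 3 + β 3) ^ 2)
        + (a ^ 2 + b ^ 2) * ((β 0 - α 0) ^ 2 + (β 1 - α 1) ^ 2 + (β 2 - α 2) ^ 2
          + (β 3 - α 3) ^ 2)) / 4 := by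
    simp only [N8, toZ, Fin.sum_univ_eight]
    simp
    field_simp
    ring
  rw [e, hab]
  rw [Fin.sum_univ_four] at h
  have : (((α 0 + β 0) ^ 2 + (α 1 + β 1) ^ 2 + (α 2 + β 2) ^ 2 + (α 3 + β 3) ^ 2)
        + (-1) * ((β 0 - α 0) ^ 2 + (β 1 - α 1) ^ 2 + (β 2 - α 2) ^ 2
          + (β 3 - α 3) ^ 2)) = 0 := by
    linear_combination 4 * h
  rw [this, zero_div]

lemma toZ_inj {E : Type} [Field E] (h2 : (2 : E) ≠ 0) {a b : E} (hab : a ^ 2 + b ^ 2 = -1)
    {α β α' β' : Fin 4 → E} (h : toZ a b α β = toZ a b α' β') : α = α' ∧ β = β' := by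
  have g0 := congrFun h 0
  have g1 := congrFun h 1
  have g2 := congrFun h 2
  have g3 := congrFun h 3
  have g4 := congrFun h 4
  have g5 := congrFun h 5
  have g6 := congrFun h 6
  have g7 := congrFun h 7
  simp only [toZ] at g0 g1 g2 g3 g4 g5 g6 g7
  simp at g0 g1 g2 g3 g4 g5 g6 g7
  have k2 : (2 : E) * (1 / 2) = 1 := by field_simp
  have u0 : α 0 + β 0 = α' 0 + β' 0 := by field_simp at g0; exact g0
  have u1 : α 1 + β 1 = α' 1 + β' 1 := by field_simp at g1; exact g1
  have u2 : α 2 + β 2 = α' 2 + β' 2 := by field_simp at g2; exact g2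
  have u3 : α 3 + β 3 = α' 3 + β' 3 := by field_simp at g3; exact g3
  have v4 : a * (β 0 - α 0) + b * (β 1 - α 1) = a * (β' 0 - α' 0) + b * (β' 1 - α' 1) := by
    field_simp at g4; linear_combination g4
  have v5 : a * (β 1 - α 1) - b * (β 0 - α 0) = a * (β' 1 - α' 1) - b * (β' 0 - α' 0) := by
    field_simp at g5; linear_combination g5
  have v6 : a * (β 2 - α 2) + b * (β 3 - α 3) = a * (β' 2 - α' 2) + b * (β' 3 - α' 3) := by
    field_simp at g6; linear_combination g6
  have v7 : a * (β 3 - α 3) - b * (β 2 - α 2) = a * (β' 3 - α' 3) - b * (β' 2 - α' 2) := by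
    field_simp at g7; linear_combination g7
  have w0 : β 0 - α 0 = β' 0 - α' 0 := by
    linear_combination (-a) * v4 + b * v5 + (β 0 - α 0 - β' 0 + α' 0) * hab
  have w1 : β 1 - α 1 = β' 1 - α' 1 := by
    linear_combination (-b) * v4 + (-a) * v5 + (β 1 - α 1 - β' 1 + α' 1) * hab
  have w2 : β 2 - α 2 = β' 2 - α' 2 := by
    linear_combination (-a) * v6 + b * v7 + (β 2 - α 2 - β' 2 + α' 2) * hab
  have w3 : β 3 - α 3 = β' 3 - α' 3 := by
    linear_combination (-b) * v6 + (-a) * v7 + (β 3 - α 3 - β' 3 + α' 3) * hab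
  have key : ∀ s t s' t' : E, s + t = s' + t' → t - s = t' - s' → s = s' ∧ t = t' := by
    intro s t s' t' h1 h3
    constructor
    · apply mul_left_cancel₀ h2
      linear_combination h1 - h3
    · apply mul_left_cancel₀ h2
      linear_combination h1 + h3
  have r0 := key _ _ _ _ u0 w0
  have r1 := key _ _ _ _ u1 w1
  have r2 := key _ _ _ _ u2 w2
  have r3 := key _ _ _ _ u3 w3
  constructor
  · funext i
    fin_cases i
    · exact r0.1
    · exact r1.1
    · exact r2.1
    · exact r3.1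
  · funext i
    fin_cases i
    · exact r0.2
    · exact r1.2
    · exact r2.2
    · exact r3.2

/-- Row CNT. -/
theorem pf_CNT : T_CNT := by
  intro E _ _ h2
  classical
  have := Fintype.ofFinite E
  obtain ⟨a, b, hab⟩ := neg_one_sum E h2
  let S := Σ α : Fin 4 → E, {y : Fin 4 → E // dotf α y = 0}
  have hS : Nat.card E ^ 7 ≤ Nat.card S := by
    have e1 : Nat.card S = ∑ α : Fin 4 → E, Nat.card {y : Fin 4 → E // dotf α y = 0} := by
      rw [Nat.card_sigma]
    rw [e1]
    calc Nat.card E ^ 7 = ∑ α : Fin 4 → E, Nat.card E ^ 3 := by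
          rw [Finset.sum_const, Finset.card_univ, smul_eq_mul, ← Nat.card_eq_fintype_card,
            Nat.card_fun, Nat.card_fin]
          ring
      _ ≤ _ := Finset.sum_le_sum (fun α _ => card_dot E α)
  refine hS.trans ?_
  let F : S → {x : Fin 8 → E // N8 x = 0} := fun s =>
    ⟨toZ a b s.1 s.2.1, N8_toZ h2 hab s.1 s.2.1 s.2.2⟩
  apply Nat.card_le_card_of_injective F
  rintro ⟨α, y⟩ ⟨α', y'⟩ h
  have h1 : toZ a b α y.1 = toZ a b α' y'.1 := congrArg Subtype.val h
  obtain ⟨rfl, h3⟩ := toZ_inj h2 hab h1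
  have : y = y' := Subtype.ext h3
  rw [this]

end Pool.Agent.H19.PSR
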