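import Pool.Agent.H52.PSR.Targets

/-!
Row OCI of the board psr_modules (MP_29035e_co): the octonion product and its identities.
-/

namespace Pool.Agent.H19.PSR

open Module Pool.Agent.H41.SP Pool.Agent.H52.PSR

/-- the octonion product in coordinates (Cayley Dickson) -/
def omul {E : Type} [Field E] (a b : Fin 8 → E) : Fin 8 → E :=
  ![a 0 * b 0 - a 1 * b 1 - a 2 * b 2 - a 3 * b 3 - a 4 * b 4 - a 5 * b 5 - a 6 * b 6 - a 7 * b 7,
    a 0 * b 1 + a 1 * b 0 + a 2 * b 3 - a 3 * b 2 + a 4 * b 5 - a 5 * b 4 - a 6 * b 7 + a 7 * b 6,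
    a 0 * b 2 - a 1 * b 3 + a 2 * b 0 + a 3 * b 1 + a 4 * b 6 + a 5 * b 7 - a 6 * b 4 - a 7 * b 5,
    a 0 * b 3 + a 1 * b 2 - a 2 * b 1 + a 3 * b 0 + a 4 * b 7 - a 5 * b 6 + a 6 * b 5 - a 7 * b 4,
    a 0 * b 4 - a 1 * b 5 - a 2 * b 6 - a 3 * b 7 + a 4 * b 0 + a 5 * b 1 + a 6 * b 2 + a 7 * b 3,
    a 0 * b 5 + a 1 * b 4 - a 2 * b 7 + a 3 * b 6 - a 4 * b 1 + a 5 * b 0 - a 6 * b 3 + a 7 * b 2,
    a 0 * b 6 + a 1 * b 7 + a 2 * b 4 - a 3 * b 5 - a 4 * b 2 + a 5 * b 3 + a 6 * b 0 - a 7 * b 1,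
    a 0 * b 7 - a 1 * b 6 + a 2 * b 5 + a 3 * b 4 - a 4 * b 3 - a 5 * b 2 + a 6 * b 1 + a 7 * b 0]

/-- octonion conjugation -/
def oconj {E : Type} [Field E] (a : Fin 8 → E) : Fin 8 → E :=
  ![a 0, -a 1, -a 2, -a 3, -a 4, -a 5, -a 6, -a 7]

section comp

variable {E : Type} [Field E] (a b : Fin 8 → E)

lemma omul_0 : omul a b 0 = a 0 * b 0 - a 1 * b 1 - a 2 * b 2 - a 3 * b 3 - a 4 * b 4 - a 5 * b 5 - a 6 * b 6 - a 7 * b 7 := rfl

lemma omul_1 : omul a b 1 = a 0 * b 1 + a 1 * b 0 + a 2 * b 3 - a 3 * b 2 + a 4 * b 5 - a 5 * b 4 - a 6 * b 7 + a 7 * b 6 := rfl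

lemma omul_2 : omul a b 2 = a 0 * b 2 - a 1 * b 3 + a 2 * b 0 + a 3 * b 1 + a 4 * b 6 + a 5 * b 7 - a 6 * b 4 - a 7 * b 5 := rfl

lemma omul_3 : omul a b 3 = a 0 * b 3 + a 1 * b 2 - a 2 * b 1 + a 3 * b 0 + a 4 * b 7 - a 5 * b 6 + a 6 * b 5 - a 7 * b 4 := rfl

lemma omul_4 : omul a b 4 = a 0 * b 4 - a 1 * b 5 - a 2 * b 6 - a 3 * b 7 + a 4 * b 0 + a 5 * b 1 + a 6 * b 2 + a 7 * b 3 := rfl

lemma omul_5 : omul a b 5 = a 0 * b 5 + a 1 * b 4 - a 2 * b 7 + a 3 * b 6 - a 4 * b 1 + a 5 * b 0 - a 6 * b 3 + a 7 * b 2 := rfl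

lemma omul_6 : omul a b 6 = a 0 * b 6 + a 1 * b 7 + a 2 * b 4 - a 3 * b 5 - a 4 * b 2 + a 5 * b 3 + a 6 * b 0 - a 7 * b 1 := rfl

lemma omul_7 : omul a b 7 = a 0 * b 7 - a 1 * b 6 + a 2 * b 5 + a 3 * b 4 - a 4 * b 3 - a 5 * b 2 + a 6 * b 1 + a 7 * b 0 := rfl

lemma oconj_0 : oconj a 0 = a 0 := rfl

lemma oconj_1 : oconj a 1 = -a 1 := rfl

lemma oconj_2 : oconj a 2 = -a 2 := rfl

lemma oconj_3 : oconj a 3 = -a 3 := rfl

lemma oconj_4 : oconj a 4 = -a 4 := rfl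

lemma oconj_5 : oconj a 5 = -a 5 := rfl

lemma oconj_6 : oconj a 6 = -a 6 := rfl

lemma oconj_7 : oconj a 7 = -a 7 := rfl

end comp

/-- octonion product as a bilinear map -/
noncomputable def omulL (E : Type) [Field E] :
    (Fin 8 → E) →ₗ[E] (Fin 8 → E) →ₗ[E] (Fin 8 → E) :=
  LinearMap.mk₂ E omul
    (by
      intro x y z; funext i
      fin_cases i <;> simp only [Fin.reduceFinMk, Fin.zero_eta, Fin.mk_one, omul_0, omul_1, omul_2, omul_3, omul_4, omul_5, omul_6,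
        omul_7, Pi.add_apply, Fin.isValue] <;> ring)
    (by
      intro c x y; funext i
      fin_cases i <;> simp only [Fin.reduceFinMk, Fin.zero_eta, Fin.mk_one, omul_0, omul_1, omul_2, omul_3, omul_4, omul_5, omul_6,
        omul_7, Pi.smul_apply, smul_eq_mul, Fin.isValue] <;> ring)
    (by
      intro x y z; funext i
      fin_cases i <;> simp only [Fin.reduceFinMk, Fin.zero_eta, Fin.mk_one, omul_0, omul_1, omul_2, omul_3, omul_4, omul_5, omul_6,
        omul_7, Pi.add_apply, Fin.isValue] <;> ring)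
    (by
      intro c x y; funext i
      fin_cases i <;> simp only [Fin.reduceFinMk, Fin.zero_eta, Fin.mk_one, omul_0, omul_1, omul_2, omul_3, omul_4, omul_5, omul_6,
        omul_7, Pi.smul_apply, smul_eq_mul, Fin.isValue] <;> ring)

lemma omulL_apply (E : Type) [Field E] (a b : Fin 8 → E) : omulL E a b = omul a b := rfl

/-- octonion conjugation as a linear map -/
noncomputable def oconjL (E : Type) [Field E] : (Fin 8 → E) →ₗ[E] (Fin 8 → E) where
  toFun := oconj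
  map_add' := by
    intro x y; funext i
    fin_cases i <;> simp only [Fin.reduceFinMk, Fin.zero_eta, Fin.mk_one, oconj_0, oconj_1, oconj_2, oconj_3, oconj_4, oconj_5,
      oconj_6, oconj_7, Pi.add_apply, Fin.isValue] <;> ring
  map_smul' := by
    intro c x; funext i
    fin_cases i <;> simp only [Fin.reduceFinMk, Fin.zero_eta, Fin.mk_one, oconj_0, oconj_1, oconj_2, oconj_3, oconj_4, oconj_5,
      oconj_6, oconj_7, Pi.smul_apply, smul_eq_mul, RingHom.id_apply, Fin.isValue] <;> ring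

lemma oconjL_apply (E : Type) [Field E] (a : Fin 8 → E) : oconjL E a = oconj a := rfl

lemma oconj_oconj {E : Type} [Field E] (a : Fin 8 → E) : oconj (oconj a) = a := by
  funext i
  fin_cases i <;> simp only [Fin.reduceFinMk, Fin.zero_eta, Fin.mk_one, oconj_0, oconj_1, oconj_2, oconj_3, oconj_4, oconj_5,
      oconj_6, oconj_7, Fin.isValue] <;> ring

lemma N8_oconj {E : Type} [Field E] (a : Fin 8 → E) : N8 (oconj a) = N8 a := by
  simp only [N8, Fin.sum_univ_eight, oconj_0, oconj_1, oconj_2, oconj_3, oconj_4, oconj_5,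
      oconj_6, oconj_7]
  ring

lemma left_alt {E : Type} [Field E] (a b z : Fin 8 → E) :
    omul (oconj a) (omul b z) + omul (oconj b) (omul a z) = (2 * B8 a b) • z := by
  funext i
  rw [Pi.add_apply, Pi.smul_apply, smul_eq_mul]
  fin_cases i <;> simp only [Fin.reduceFinMk, Fin.zero_eta, Fin.mk_one, omul_0, omul_1, omul_2, omul_3, omul_4, omul_5, omul_6,
        omul_7, oconj_0, oconj_1, oconj_2, oconj_3, oconj_4, oconj_5,
      oconj_6, oconj_7, B8, Fin.sum_univ_eight, Fin.isValue] <;> ring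

lemma right_alt {E : Type} [Field E] (a z : Fin 8 → E) :
    omul (omul a z) (oconj z) = N8 z • a := by
  funext i
  rw [Pi.smul_apply, smul_eq_mul]
  fin_cases i <;> simp only [Fin.reduceFinMk, Fin.zero_eta, Fin.mk_one, omul_0, omul_1, omul_2, omul_3, omul_4, omul_5, omul_6,
        omul_7, oconj_0, oconj_1, oconj_2, oconj_3, oconj_4, oconj_5,
      oconj_6, oconj_7, N8, Fin.sum_univ_eight, Fin.isValue] <;> ring

/-- Row OCI. -/
theorem pf_OCI : T_OCI := by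
  intro E _
  refine ⟨omulL E, oconjL E, ?_, ?_, ?_, ?_⟩
  · intro a
    simp only [oconjL_apply]
    exact oconj_oconj a
  · intro a
    rw [oconjL_apply]
    exact N8_oconj a
  · intro a b z
    simp only [oconjL_apply, omulL_apply]
    exact left_alt a b z
  · intro a z
    simp only [oconjL_apply, omulL_apply]
    exact right_alt a z

end Pool.Agent.H19.PSR
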