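import Pool.Agent.H52.PSR.Targets

/-!
Row TRA of the board psr_modules (MP_29035e_co): a translate of a set without singular differences
meets the quadric in many points.
-/

namespace Pool.Agent.H19.PSR

open Module Pool.Agent.H41.SP Pool.Agent.H52.PSR

lemma N8_sub {E : Type} [Field E] (y z : Fin 8 → E) :
    N8 (y - z) = N8 y + N8 z - 2 * B8 y z := by
  simp only [N8, B8, Finset.mul_sum, ← Finset.sum_add_distrib, ← Finset.sum_sub_distrib,
    Pi.sub_apply]
  apply Finset.sum_congr rfl
  intro i _
  ring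

/-- Row TRA. -/
theorem pf_TRA (h1 : T_CNT) : T_TRA := by
  intro E _ _ h2 A hA
  classical
  have := Fintype.ofFinite E
  have hZ := h1 E h2
  have hq : 0 < Nat.card E := Nat.card_pos
  have hc8 : Fintype.card (Fin 8 → E) = Nat.card E ^ 8 := by
    rw [← Nat.card_eq_fintype_card, Nat.card_fun, Nat.card_fin]
  have hZ' : Nat.card {x : Fin 8 → E // N8 x = 0} =
      (Finset.univ.filter (fun x : Fin 8 → E => N8 x = 0)).card := by
    rw [Nat.card_eq_fintype_card, Fintype.card_subtype]
  -- double counting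
  have hdc : ∑ s : Fin 8 → E, (A.filter (fun x => N8 (x - s) = 0)).card =
      A.card * Nat.card {x : Fin 8 → E // N8 x = 0} := by
    have e1 : ∀ s : Fin 8 → E, (A.filter (fun x => N8 (x - s) = 0)).card =
        ∑ x ∈ A, if N8 (x - s) = 0 then 1 else 0 := by
      intro s
      rw [Finset.card_filter]
    simp only [e1]
    rw [Finset.sum_comm]
    have e2 : ∀ x ∈ A, (∑ s : Fin 8 → E, if N8 (x - s) = 0 then 1 else 0) =
        Nat.card {x : Fin 8 → E // N8 x = 0} := by
      intro x _
      rw [hZ', Finset.card_filter]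
      exact Fintype.sum_equiv (Equiv.subLeft x) _ _ (fun s => rfl)
    rw [Finset.sum_congr rfl e2, Finset.sum_const, smul_eq_mul]
  obtain ⟨s, hs⟩ : ∃ s : Fin 8 → E,
      A.card ≤ (A.filter (fun x => N8 (x - s) = 0)).card * Nat.card E := by
    by_contra hcon
    push Not at hcon
    have h3 : ∀ s ∈ (Finset.univ : Finset (Fin 8 → E)),
        (A.filter (fun x => N8 (x - s) = 0)).card * Nat.card E < A.card := fun s _ => hcon s
    have h4 := Finset.sum_lt_sum_of_nonempty (Finset.univ_nonempty) h3
    rw [← Finset.sum_mul, hdc, Finset.sum_const, Finset.card_univ, hc8, smul_eq_mul] at h4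
    have h5 : A.card * Nat.card E ^ 7 * Nat.card E ≤
        A.card * Nat.card {x : Fin 8 → E // N8 x = 0} * Nat.card E :=
      Nat.mul_le_mul_right _ (Nat.mul_le_mul_left _ hZ)
    have h6 : A.card * Nat.card E ^ 7 * Nat.card E = Nat.card E ^ 8 * A.card := by ring
    omega
  set T0 : Finset (Fin 8 → E) := (A.filter (fun x => N8 (x - s) = 0)).image (fun x => x - s)
    with hT0
  have hT0c : T0.card = (A.filter (fun x => N8 (x - s) = 0)).card := by
    rw [hT0]
    apply Finset.card_image_of_injective
    intro x y hxy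
    exact sub_left_inj.1 hxy
  have hT0z : ∀ y ∈ T0, N8 y = 0 := by
    intro y hy
    rw [hT0, Finset.mem_image] at hy
    obtain ⟨x, hx, rfl⟩ := hy
    exact (Finset.mem_filter.1 hx).2
  have hT0b : ∀ y ∈ T0, ∀ z ∈ T0, y ≠ z → B8 y z ≠ 0 := by
    intro y hy z hz hyz h0
    have h3 := hT0z y hy
    have h4 := hT0z z hz
    rw [hT0, Finset.mem_image] at hy hz
    obtain ⟨x, hx, rfl⟩ := hy
    obtain ⟨x', hx', rfl⟩ := hz
    have hne : x ≠ x' := by
      rintro rfl
      exact hyz rfl
    apply hA x (Finset.mem_filter.1 hx).1 x' (Finset.mem_filter.1 hx').1 hne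
    have e : x - x' = (x - s) - (x' - s) := by abel
    rw [e, N8_sub, h3, h4, h0]
    ring
  by_cases hcard : 1 < T0.card
  · refine ⟨T0, ?_, hT0b, ?_⟩
    · intro x hx
      refine ⟨?_, hT0z x hx⟩
      rintro rfl
      obtain ⟨y, hy, hy0⟩ := Finset.exists_mem_ne hcard (0 : Fin 8 → E)
      apply hT0b 0 hx y hy (Ne.symm hy0)
      simp [B8]
    · rw [hT0c]
      exact hs
  · -- at most one element
    have hle : A.card ≤ Nat.card E := by
      rw [hT0c] at hcard
      push Not at hcard
      calc A.card ≤ _ := hs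
        _ ≤ 1 * Nat.card E := Nat.mul_le_mul_right _ hcard
        _ = Nat.card E := one_mul _
    have hq1 : 1 < Nat.card E := Finite.one_lt_card
    have hbig : 1 < (Finset.univ.filter (fun x : Fin 8 → E => N8 x = 0)).card := by
      rw [← hZ']
      exact lt_of_lt_of_le (Nat.one_lt_pow (by norm_num) hq1) hZ
    obtain ⟨w, hw, hw0⟩ := Finset.exists_mem_ne hbig (0 : Fin 8 → E)
    refine ⟨{w}, ?_, ?_, ?_⟩
    · intro x hx
      rw [Finset.mem_singleton] at hx
      subst hx
      exact ⟨hw0, (Finset.mem_filter.1 hw).2⟩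
    · intro x hx y hy hxy
      rw [Finset.mem_singleton] at hx hy
      exact absurd (hx.trans hy.symm) hxy
    · rw [Finset.card_singleton, one_mul]
      exact hle

end Pool.Agent.H19.PSR
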